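import Pool.Agent.Helper34.FB.Goals

/-!
# Packet FB-CLIMB (MP_05c055_al)
-/

set_option autoImplicit false

namespace Pool.Agent.Helper54.FB

open Pool.Agent.Helper34.FB

universe u v w

section words

variable {R : Type u} [CommRing R] {t1 t2 : R} {J : Type} [Fintype J] {f1 f2 : J → R} {p : ℕ}
  (S : Sys1.{u, v} R t1 t2 J f1 f2 p)

theorem dw_append (L M : List J) (y : S.W) : Dw S (L ++ M) y = Dw S L (Dw S M y) := by
  induction L with
  | nil => rfl
  | cons j L ih => simp only [List.cons_append, Dw, LinearMap.comp_apply, ih]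

theorem dw_snoc (L : List J) (j : J) (y : S.W) : Dw S (L ++ [j]) y = Dw S L (S.D j y) := by
  rw [dw_append]; rfl

theorem dw_long (L : List J) :
    ∀ (i : ℕ) (z : S.W), z ∈ S.gr i → i < L.length → Dw S L z = 0 := by
  induction L using List.reverseRecOn with
  | nil => intro i z _ h; simp at h
  | append_singleton L j ih =>
    intro i z hz hi
    rw [dw_snoc]
    cases i with
    | zero => rw [S.D_zero j z hz, map_zero]
    | succ k =>
      refine ih k _ (S.D_gr j k z hz) ?_
      rw [List.length_append, List.length_singleton] at hi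
      omega

variable {X : Type w} [AddCommGroup X] [Module R X] (τ : S.W →ₗ[R] X)

theorem tau_K (hT : ∀ y ∈ S.T, τ y = 0) (K : S.W →+ S.W) (hKT : ∀ w, K w ∈ S.T) (c : J → R)
    (hK : ∀ j w, S.D j (K w) + K (S.D j w) = c j • w) (L : List J) :
    ∀ y : S.W, (∀ L' : List J, τ (Dw S L' y) = 0) → τ (Dw S L (K y)) = 0 := by
  induction L using List.reverseRecOn with
  | nil => intro y _; exact hT _ (hKT y)
  | append_singleton L j ih =>
    intro y hy
    have h1 : S.D j (K y) = c j • y - K (S.D j y) := by rw [← hK j y]; abel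
    have h2 : τ (Dw S L (K (S.D j y))) = 0 := by
      apply ih
      intro L'
      rw [← dw_snoc]
      exact hy _
    rw [dw_snoc, h1, map_sub, map_sub, map_smul, map_smul, hy L, h2, smul_zero, sub_zero]

/-- the operator attached to a letter `m` and a compatible pair -/
def wv (m : J) (x y : S.W) : S.W := S.h m x - S.s y

/-- compatible pairs -/
def PR (m : J) (x y : S.W) : Prop :=
  (∃ i, x ∈ S.gr i ∧ y ∈ S.gr i) ∧ f1 m • x = -(t2 • y) ∧ f2 m • x = t1 • y

variable {S}

theorem PR.D {m : J} {x y : S.W} (h : PR S m x y) (j : J) : PR S m (S.D j x) (S.D j y) := by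
  obtain ⟨⟨i, hx, hy⟩, h1, h2⟩ := h
  refine ⟨?_, ?_, ?_⟩
  · cases i with
    | zero =>
      refine ⟨0, ?_, ?_⟩
      · rw [S.D_zero j x hx]; exact zero_mem _
      · rw [S.D_zero j y hy]; exact zero_mem _
    | succ k => exact ⟨k, S.D_gr j k x hx, S.D_gr j k y hy⟩
  · rw [← map_smul, h1, map_neg, map_smul]
  · rw [← map_smul, h2, map_smul]

theorem wv_T (m : J) (x y : S.W) : wv S m x y ∈ S.T :=
  S.T.sub_mem (S.h_T m x) (S.s_T y)

open Classical in
theorem D_wv {m : J} {x y : S.W} (h : PR S m x y) (j : J) : ∃ a b : S.W,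
    S.D j (wv S m x y) = (if j = m then x else 0) - wv S m (S.D j x) (S.D j y)
      + (t1 • a + t2 • b) := by
  obtain ⟨⟨i, hx, hy⟩, h1, h2⟩ := h
  have e1 : ∀ x : S.W, ∑ l, S.h l (if l = m then x else 0) = S.h m x := by
    intro x
    rw [Finset.sum_eq_single m]
    · rw [if_pos rfl]
    · intro l _ hl
      rw [if_neg hl, map_zero]
    · intro hm; exact absurd (Finset.mem_univ m) hm
  have e2 : ∀ (g : J → R) (x : S.W), ∑ l, g l • (if l = m then x else 0) = g m • x := by
    intro g x
    rw [Finset.sum_eq_single m]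
    · rw [if_pos rfl]
    · intro l _ hl
      rw [if_neg hl, smul_zero]
    · intro hm; exact absurd (Finset.mem_univ m) hm
  have e3 : ∀ l, S.D j (if l = m then x else 0) = if l = m then S.D j x else 0 := by
    intro l
    split_ifs
    · rfl
    · rw [map_zero]
  obtain ⟨a, b, hab⟩ := S.kap i (fun l => if l = m then x else 0) y
    (by
      intro l
      show (if l = m then x else 0) ∈ S.gr i
      split_ifs
      · exact hx
      · exact zero_mem _) hy
    (by rw [e2]; exact h1) (by rw [e2]; exact h2) j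
  refine ⟨a, b, ?_⟩
  simp only [e3] at hab
  rw [e1, e1] at hab
  exact hab

open Classical in
theorem step {m : J} {x y : S.W} (h : PR S m x y) (hτ1 : ∀ y, τ (t1 • y) = 0)
    (hτ2 : ∀ y, τ (t2 • y) = 0) (L : List J) (j : J) :
    τ (Dw S (L ++ [j]) (wv S m x y)) =
      (if j = m then τ (Dw S L x) else 0) - τ (Dw S L (wv S m (S.D j x) (S.D j y))) := by
  obtain ⟨a, b, hab⟩ := D_wv h j
  have e1 : τ (Dw S L (t1 • a + t2 • b)) = 0 := by
    have e0 : Dw S L (t1 • a + t2 • b) = t1 • Dw S L a + t2 • Dw S L b := by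
      rw [map_add, map_smul, map_smul]
    rw [e0, map_add, hτ1, hτ2, add_zero]
  rw [dw_snoc, hab, map_add, map_add, map_sub, map_sub, e1, add_zero]
  congr 1
  split_ifs
  · rfl
  · rw [map_zero, map_zero]

theorem wf0 {m : J} (hτ1 : ∀ y, τ (t1 • y) = 0) (hτ2 : ∀ y, τ (t2 • y) = 0)
    (hT : ∀ y ∈ S.T, τ y = 0) (L : List J) : ∀ x y : S.W, PR S m x y →
    (∀ L', τ (Dw S L' x) = 0) → τ (Dw S L (wv S m x y)) = 0 := by
  classical
  induction L using List.reverseRecOn with
  | nil => intro x y _ _; exact hT _ (wv_T m x y)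
  | append_singleton L j ih =>
    intro x y h hx
    rw [step τ h hτ1 hτ2, hx L, ih _ _ (h.D j) (fun L' => by rw [← dw_snoc]; exact hx _)]
    simp

theorem wf3 {m : J} (hτ1 : ∀ y, τ (t1 • y) = 0) (hτ2 : ∀ y, τ (t2 • y) = 0)
    (hT : ∀ y ∈ S.T, τ y = 0) (L : List J) : m ∉ L → ∀ x y : S.W, PR S m x y →
    τ (Dw S L (wv S m x y)) = 0 := by
  classical
  induction L using List.reverseRecOn with
  | nil => intro _ x y _; exact hT _ (wv_T m x y)
  | append_singleton L j ih =>
    intro hm x y h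
    rw [List.mem_append, List.mem_singleton, not_or] at hm
    rw [step τ h hτ1 hτ2, ih hm.1 _ _ (h.D j), if_neg (fun e => hm.2 e.symm), sub_zero]

theorem wf1 (B : J → Prop) {m : J} (hm : ¬ B m) (hτ1 : ∀ y, τ (t1 • y) = 0)
    (hτ2 : ∀ y, τ (t2 • y) = 0) (hT : ∀ y ∈ S.T, τ y = 0) (L : List J) :
    (∃ b ∈ L, B b) → ∀ x y : S.W, PR S m x y → (∀ L', (∃ b ∈ L', B b) → τ (Dw S L' x) = 0) →
    τ (Dw S L (wv S m x y)) = 0 := by
  classical
  induction L using List.reverseRecOn with
  | nil => rintro ⟨b, hb, _⟩; simp at hb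
  | append_singleton L j ih =>
    intro hL x y h hx
    rw [step τ h hτ1 hτ2]
    by_cases hj : B j
    · rw [if_neg (fun e : j = m => hm (e ▸ hj)), wf0 τ hτ1 hτ2 hT L _ _ (h.D j), sub_zero]
      intro L'
      rw [← dw_snoc]
      exact hx _ ⟨j, by simp, hj⟩
    · have hL' : ∃ b ∈ L, B b := by
        obtain ⟨b, hb, hB⟩ := hL
        rw [List.mem_append, List.mem_singleton] at hb
        rcases hb with hb | hb
        · exact ⟨b, hb, hB⟩
        · exact absurd (hb ▸ hB) hj
      rw [hx L hL', ih hL' _ _ (h.D j)]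
      · simp
      · intro L' hb
        rw [← dw_snoc]
        obtain ⟨b, hb, hB⟩ := hb
        exact hx _ ⟨b, by simp [hb], hB⟩

theorem wf2 {m : J} (hτ1 : ∀ y, τ (t1 • y) = 0) (hτ2 : ∀ y, τ (t2 • y) = 0)
    (hT : ∀ y ∈ S.T, τ y = 0) (L : List J) (hm : m ∉ L) (x y : S.W) (h : PR S m x y) :
    τ (Dw S (L ++ [m]) (wv S m x y)) = τ (Dw S L x) := by
  classical
  rw [step τ h hτ1 hτ2, if_pos rfl, wf3 τ hτ1 hτ2 hT L hm _ _ (h.D m), sub_zero]

end words

section EK

variable {R : Type u} [CommRing R] {t1 t2 : R} {e s p : ℕ} {f1 f2 : Fin e ⊕ Fin s → R}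
  {S : Sys1.{u, v} R t1 t2 (Fin e ⊕ Fin s) f1 f2 p}
  {X : Type w} [AddCommGroup X] [Module R X] (τ : S.W →ₗ[R] X)

theorem ek (hT : ∀ y ∈ S.T, τ y = 0) (K : Fin s → S.W →+ S.W) (c : Fin s → Fin e ⊕ Fin s → R)
    (hc1 : ∀ a, c a (Sum.inr a) = 1) (hc0 : ∀ a b, b ≠ a → c a (Sum.inr b) = 0)
    (hKgr : ∀ a i, ∀ w ∈ S.gr i, K a w ∈ S.gr (i + 1)) (hKT : ∀ a w, K a w ∈ S.T)
    (hK : ∀ a j w, S.D j (K a w) + K a (S.D j w) = c a j • w)
    (i : ℕ) (z : S.W) (hz : z ∈ S.gr i)
    (hP : ∀ (L : List (Fin e ⊕ Fin s)) (a : Fin s), Sum.inr a ∈ L → τ (Dw S L z) = 0) :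
    ∀ k, k ≤ s → ∃ E : S.W →ₗ[R] S.W, (∀ n, ∀ w ∈ S.gr (n + k), E w ∈ S.gr n) ∧
      (∀ b : Fin s, k ≤ (b : ℕ) → ∀ y, K b (E y) = E (K b y) ∨ K b (E y) = -E (K b y)) ∧
      ∃ y ∈ S.gr (i + k), ∀ L, τ (Dw S L (E y)) = τ (Dw S L z) := by
  intro k
  induction k with
  | zero =>
    intro _
    exact ⟨LinearMap.id, fun n w hw => hw, fun b _ y => Or.inl rfl, z, hz, fun L => rfl⟩
  | succ k ih =>
    intro hk
    obtain ⟨E, hE1, hE2, y, hy, hEy⟩ := ih (by omega)
    have hk' : k < s := hk
    set a : Fin s := ⟨k, hk'⟩ with ha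
    have key : ∀ L, τ (Dw S L (S.D (Sum.inr a) (K a (E y)))) = τ (Dw S L z) := by
      intro L
      have h1 : S.D (Sum.inr a) (K a (E y)) = E y - K a (S.D (Sum.inr a) (E y)) := by
        have h := hK a (Sum.inr a) (E y)
        rw [hc1, one_smul] at h
        exact eq_sub_of_add_eq h
      have h2 : τ (Dw S L (K a (S.D (Sum.inr a) (E y)))) = 0 := by
        apply tau_K S τ hT (K a) (hKT a) (c a) (hK a)
        intro L'
        rw [← dw_snoc, hEy]
        exact hP _ a (by simp)
      rw [h1, map_sub, map_sub, h2, sub_zero, hEy]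
    refine ⟨S.D (Sum.inr a) ∘ₗ E, ?_, ?_, ?_⟩
    · intro n w hw
      have h1 : w ∈ S.gr ((n + 1) + k) := by
        have e1 : n + (k + 1) = (n + 1) + k := by omega
        rw [e1] at hw
        exact hw
      exact S.D_gr _ n _ (hE1 (n + 1) w h1)
    · intro b hb y'
      have hba : (a : Fin s) ≠ b := by
        intro h
        have h' : k = (b : ℕ) := congrArg Fin.val h
        omega
      have h1 : K b (S.D (Sum.inr a) (E y')) = -S.D (Sum.inr a) (K b (E y')) := by
        have h := hK b (Sum.inr a) (E y')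
        rw [hc0 b a hba, zero_smul] at h
        exact eq_neg_of_add_eq_zero_right h
      simp only [LinearMap.comp_apply]
      rcases hE2 b (by omega) y' with h2 | h2
      · right
        rw [h1, h2]
      · left
        rw [h1, h2, map_neg, neg_neg]
    · have hKy : K a y ∈ S.gr (i + (k + 1)) := hKgr a (i + k) y hy
      rcases hE2 a (le_of_eq rfl) y with h2 | h2
      · refine ⟨K a y, hKy, fun L => ?_⟩
        rw [← key L, h2]
        rfl
      · refine ⟨-K a y, neg_mem hKy, fun L => ?_⟩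
        rw [← key L, h2]
        simp only [LinearMap.comp_apply, map_neg]

end EK

/-- packet FB-CLIMB -/
theorem gCLIMB : Pool.Agent.Helper34.FB.G_CLIMB.{u, v, w} := by
  intro R _ t1 t2 e s p f1 f2 S X _ _ τ g hes hg hyp hτ1 hτ2 hT
  classical
  -- the operators `K`
  let c : Fin s → Fin e ⊕ Fin s → R := fun a =>
    Sum.elim (fun j => -g a j) (fun b => if b = a then 1 else 0)
  have hc : ∀ a, ∑ l, c a l * (t1 * f1 l + t2 * f2 l) = 0 := by
    intro a
    rw [Fintype.sum_sum_type]
    simp only [c, Sum.elim_inl, Sum.elim_inr, ite_mul, one_mul, zero_mul, neg_mul,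
      Finset.sum_neg_distrib, Finset.sum_ite_eq', Finset.mem_univ, if_true]
    rw [hg a]
    ring
  have hk := fun a => S.kop (c a) (hc a)
  choose K hKgr hKT hK using hk
  have hc1 : ∀ a, c a (Sum.inr a) = 1 := fun a => by simp [c]
  have hc0 : ∀ a b, b ≠ a → c a (Sum.inr b) = 0 := fun a b h => by simp [c, h]
  -- downward induction
  have main : ∀ n i, p + 1 ≤ i + s + n → 1 ≤ i → ∀ z ∈ S.gr i,
      (∀ (L : List (Fin e ⊕ Fin s)) (a : Fin s), Sum.inr a ∈ L → τ (Dw S L z) = 0) →
      ∀ L : List (Fin e ⊕ Fin s), τ (Dw S L z) = 0 := by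
    intro n
    induction n with
    | zero =>
      intro i hi h1 z hz hP L
      obtain ⟨E, hE1, hE2, y, hy, hEy⟩ := ek τ hT K c hc1 hc0 hKgr hKT hK i z hz hP s le_rfl
      rw [← hEy L, S.gr_top (i + s) (by omega) y hy, map_zero, map_zero, map_zero]
    | succ n ih =>
      intro i hi h1 z hz hP L
      obtain ⟨E, hE1, hE2, y, hy, hEy⟩ := ek τ hT K c hc1 hc0 hKgr hKT hK i z hz hP s le_rfl
      by_cases hip : p + 1 ≤ i + s
      · rw [← hEy L, S.gr_top (i + s) (by omega) y hy, map_zero, map_zero, map_zero]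
      · by_cases hLr : ∃ a : Fin s, Sum.inr a ∈ L
        · obtain ⟨a, ha⟩ := hLr
          exact hP L a ha
        · by_cases hLi : i < L.length
          · rw [dw_long S L i z hz hLi, map_zero]
          · -- choose a letter
            obtain ⟨m, hm⟩ : ∃ m : Fin e, (Sum.inl m : Fin e ⊕ Fin s) ∉ L := by
              by_contra hcon
              push Not at hcon
              have hsub : (Finset.univ.image (Sum.inl : Fin e → Fin e ⊕ Fin s)) ⊆ L.toFinset := by
                intro x hx
                obtain ⟨m, -, rfl⟩ := Finset.mem_image.mp hx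
                exact List.mem_toFinset.mpr (hcon m)
              have hcard := Finset.card_le_card hsub
              rw [Finset.card_image_of_injective _ Sum.inl_injective, Finset.card_univ,
                Fintype.card_fin] at hcard
              have := L.toFinset_card_le
              omega
            obtain ⟨v0, hv0, hv1, hv2⟩ := hyp m (i + s) (by omega) y hy
            have hPR : PR S (Sum.inl m) (E y) (E v0) := by
              refine ⟨⟨i, hE1 i y hy, hE1 i v0 hv0⟩, ?_, ?_⟩
              · rw [← map_smul, hv1, map_neg, map_smul]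
              · rw [← map_smul, hv2, map_smul]
            have hw : wv S (Sum.inl m) (E y) (E v0) ∈ S.gr (i + 1) :=
              sub_mem (S.h_gr _ i _ (hE1 i y hy)) (S.s_gr i _ (hE1 i v0 hv0))
            have hPw : ∀ (L : List (Fin e ⊕ Fin s)) (a : Fin s), Sum.inr a ∈ L →
                τ (Dw S L (wv S (Sum.inl m) (E y) (E v0))) = 0 := by
              intro L' a ha
              refine wf1 τ (fun j => ∃ a : Fin s, j = Sum.inr a) (by rintro ⟨a, ha⟩; simp at ha)
                hτ1 hτ2 hT L' ⟨_, ha, a, rfl⟩ _ _ hPR ?_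
              rintro L'' ⟨b, hb, a', rfl⟩
              rw [hEy]
              exact hP L'' a' hb
            have h3 := ih (i + 1) (by omega) (by omega) _ hw hPw (L ++ [Sum.inl m])
            rw [wf2 τ hτ1 hτ2 hT L hm _ _ hPR, hEy] at h3
            exact h3
  intro i h1 z hz hP L
  exact main (p + 1) i (by omega) h1 z hz hP L

end Pool.Agent.Helper54.FB
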